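import Pool.Agent.Helper42.LK.Defs
import Pool.Agent.Helper54.LS.KerDefs

/-!
# Signed master inequality (MP_9a3c31_nt): definitions and module statements

Paper proofs: /team-store/lv_blueprint.md
-/

open Filter Topology NumberField

namespace Pool.Agent.Helper92.LV

open Pool.Agent.Helper42.LS Pool.Agent.Helper42.LK Pool.Agent.Helper54.LS

/-- nonnegative and almost closed under sums and differences -/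
structure QC (c : ℝ) (f : ℕ → ℝ) : Prop where
  nonneg : ∀ k : ℕ, 1 ≤ k → 0 ≤ f k
  add : ∀ k l : ℕ, 1 ≤ k → 1 ≤ l → min (f k) (f l) - c ≤ f (k + l)
  sub : ∀ k l : ℕ, 1 ≤ l → l < k → min (f k) (f l) - c ≤ f (k - l)

/-- divisor condition: all sums over multiples are nonnegative -/
def DC (J : ℕ) (b : ℕ → ℝ) : Prop :=
  ∀ m : ℕ, 1 ≤ m → 0 ≤ ∑ k ∈ (Finset.Icc 1 J).filter (fun k => m ∣ k), b k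

/-! ### the divisor lemma -/

/-- DIV1 : the level sets are nearly sets of multiples -/
def ST_DIV1 : Prop := ∀ (c : ℝ) (f : ℕ → ℝ) (J : ℕ), 0 ≤ c → QC c f → 1 ≤ J → ∀ s : ℝ,
  ∃ d : ℕ, 1 ≤ d ∧ (∀ k : ℕ, 1 ≤ k → k ≤ J → s ≤ f k → d ∣ k) ∧
    (∀ k : ℕ, 1 ≤ k → k ≤ J → d ∣ k → s - 2 * ((Nat.log 2 J : ℝ) + 1) ^ 2 * c ≤ f k)

/-- DIV : the divisor lemma -/
def ST_DIV : Prop := ∃ C : ℝ, 0 ≤ C ∧ ∀ (c : ℝ) (f b : ℕ → ℝ) (J : ℕ), 0 ≤ c → QC c f → 1 ≤ J →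
  DC J b → -(C * c * (1 + Real.log J) ^ 2 * ∑ k ∈ Finset.Icc 1 J, |b k|) ≤
    ∑ k ∈ Finset.Icc 1 J, b k * f k

/-! ### closure under sums and differences of the points near the origin -/

/-- QCI : finite places -/
def ST_QCI : Prop := ∀ (F : Type) [Field F] [CharZero F] (v : DV F) (A B : F), v.nr A ≤ 1 →
  v.nr B ≤ 1 → ∀ x y : ℕ → F, GSeq (0 : F) A B x y →
  QC 0 (fun k => Real.log (max (v.nr (x k)) 1))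

/-- QCA : complex numbers, bounded coefficients -/
def ST_QCA : Prop := ∀ M : ℝ, ∃ C₀ : ℝ, 0 ≤ C₀ ∧ ∀ a b c : ℂ, ‖a‖ ≤ M → ‖b‖ ≤ M → ‖c‖ ≤ M →
  ∀ X Y : ℕ → ℂ, GSeq a b c X Y → QC C₀ (fun k => Real.log (max ‖X k‖ 1))

/-! ### two sided local packages, finite places -/

/-- KGO2 : good reduction, residue characteristic not 2 -/
def ST_KGO2 : Prop := ∀ (F : Type) [Field F] [CharZero F] (v : DV F), v.nr 2 = 1 →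
  ∀ A B : F, v.nr A ≤ 1 → v.nr B ≤ 1 → v.nr (dsc A B) = 1 → ∀ x y : ℕ → F,
  GSeq (0 : F) A B x y → ∀ k : ℕ, 1 ≤ k →
  4 * Real.log (max (v.nr (x k)) 1) = Real.log (max (v.nr (x (2 * k))) 1) +
    Real.log (v.nr (4 * cu A B (x k)))

/-- KPM2 : multiplicative place, exact formulas -/
def ST_KPM2 : Prop := ∀ (F : Type) [Field F] [CharZero F] (v : DV F) (N : ℕ), 1 ≤ N →
  ∀ A B : F, dsc A B ≠ 0 →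
  v.ord (6912 * A ^ 3 / dsc A B) = -(N : ℤ) → ∀ x y : ℕ → F, GSeq (0 : F) A B x y →
  ∃ (r a : ℤ) (ρ : F) (U : ℕ → ℝ), ρ ≠ 0 ∧ v.ord ρ = -r ∧
    v.ord (16 * dsc A B) = N + 6 * r ∧
    (∀ k : ℕ, 1 ≤ k → U k = Real.log (max (v.nr ((x k - -3 * B / (2 * A)) * ρ)) 1) +
      N * Real.log v.q * (B2 (k * (a / (2 * N))) - 1 / 6) - r * Real.log v.q) ∧
    (∀ k : ℕ, 1 ≤ k → 4 * U k = U (2 * k) + Real.log (v.nr (4 * cu A B (x k)))) ∧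
    (v.ord 2 = 0 → v.ord 3 = 0 → v.nr A < 1 → ∀ k : ℕ, 1 ≤ k → 1 ≤ v.nr (x k) →
      U k = Real.log (v.nr (x k)))

/-- KPG2 : residue characteristic not 2, 3, potentially good reduction, exact -/
def ST_KPG2 : Prop := ∀ (F : Type) [Field F] [CharZero F] (v : DV F), v.ord 2 = 0 → v.ord 3 = 0 →
  ∀ A B : F, dsc A B ≠ 0 →
  v.nr (6912 * A ^ 3) ≤ v.nr (dsc A B) → ∀ x y : ℕ → F, GSeq (0 : F) A B x y →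
  ∃ R : ℝ, 0 < R ∧ Real.log R = 1 / 6 * Real.log (v.nr (dsc A B)) ∧ ∀ k : ℕ, 1 ≤ k →
    4 * Real.log (max (v.nr (x k)) R) = Real.log (max (v.nr (x (2 * k))) R) +
      Real.log (v.nr (4 * cu A B (x k)))

/-- KPS2 : any place, potentially good reduction, constant depending on the place -/
def ST_KPS2 : Prop := ∀ (F : Type) [Field F] [CharZero F] (v : DV F), ∃ C₀ : ℝ, 0 ≤ C₀ ∧
  ∀ A B : F, dsc A B ≠ 0 →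
  v.nr (6912 * A ^ 3) ≤ v.nr (dsc A B) → ∀ x y : ℕ → F, GSeq (0 : F) A B x y →
  ∃ R : ℝ, 0 < R ∧ Real.log R = 1 / 6 * Real.log (v.nr (dsc A B)) ∧ ∀ k : ℕ, 1 ≤ k →
    |4 * Real.log (max (v.nr (x k)) R) - Real.log (max (v.nr (x (2 * k))) R) -
      Real.log (v.nr (4 * cu A B (x k)))| ≤ C₀

/-- KLB2 : local package, residue characteristic not 2, 3, exact -/
def ST_KLB2 : Prop := ∀ (F : Type) [Field F] [CharZero F] (v : DV F), v.ord 2 = 0 → v.ord 3 = 0 →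
  ∀ A B : F, dsc A B ≠ 0 → ∀ x y : ℕ → F, GSeq (0 : F) A B x y →
  ∃ (t : ℝ) (n : ℕ) (U f : ℕ → ℝ), 0 ≤ dl v.nr A B ∧ 1 ≤ n ∧ (∃ a : ℤ, (n : ℝ) * t = a) ∧
    (dl v.nr A B ≠ 0 → n * Real.log v.q ≤ dl v.nr A B) ∧ (t ≠ 0 → IsMul v.nr A B) ∧
    (∀ k : ℕ, 1 ≤ k → 4 * U k = U (2 * k) + Real.log (v.nr (4 * cu A B (x k)))) ∧
    (∃ C : ℝ, ∀ k : ℕ, 1 ≤ k → |U k - Real.log (max (v.nr (x k)) 1)| ≤ C) ∧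
    QC 0 f ∧
    (∀ k : ℕ, 1 ≤ k →
      U (12 * k) = dl v.nr A B * B2 (k * t) + 1 / 6 * Real.log (v.nr (dsc A B)) + f k)

/-- KLS2 : local package, any place, constant depending on the place -/
def ST_KLS2 : Prop := ∀ (F : Type) [Field F] [CharZero F] (v : DV F), ∃ C₀ : ℝ, 0 ≤ C₀ ∧
  ∀ A B : F, dsc A B ≠ 0 → ∀ x y : ℕ → F, GSeq (0 : F) A B x y →
  ∃ (w t : ℝ) (n : ℕ) (U f : ℕ → ℝ), 0 ≤ w ∧ |w - dl v.nr A B| ≤ C₀ ∧ 1 ≤ n ∧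
    (∃ a : ℤ, (n : ℝ) * t = a) ∧ (w ≠ 0 → n * Real.log v.q ≤ w) ∧
    (∀ k : ℕ, 1 ≤ k → |4 * U k - U (2 * k) - Real.log (v.nr (4 * cu A B (x k)))| ≤ C₀) ∧
    (∃ C : ℝ, ∀ k : ℕ, 1 ≤ k → |U k - Real.log (max (v.nr (x k)) 1)| ≤ C) ∧
    QC 0 f ∧
    (∀ k : ℕ, 1 ≤ k →
      |U (12 * k) - (w * B2 (k * t) + 1 / 6 * Real.log (v.nr (dsc A B)) + f k)| ≤ C₀)

/-! ### two sided local packages, archimedean places -/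

/-- CP2 : upper bound for the potential -/
def ST_CP2 : Prop := ∃ C₀ : ℝ, 0 ≤ C₀ ∧ ∀ κ Z Y : ℂ, κ ≠ 0 → ‖κ‖ ≤ 1 / 100 → Z ≠ 0 → Y ≠ 0 →
  Y ^ 2 = Z ^ 3 - (2 + κ) * Z ^ 2 + Z →
  Real.log (max (‖Z ^ 2 - 1‖ ^ 2) ‖4 * Y ^ 2‖) ≤
    4 * Real.log (max ‖Z‖ 1) - 2 * fk κ ((Y / Z) ^ 2) + C₀

/-- CS2 : large `j`, normalised, two sided -/
def ST_CS2 : Prop := ∃ C₀ : ℝ, 0 ≤ C₀ ∧ ∀ κ : ℂ, κ ≠ 0 → ‖κ‖ ≤ 1 / 100 → ∀ Z Y : ℕ → ℂ,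
  GSeq (-(2 + κ)) 1 0 Z Y →
  ∃ (U : ℕ → ℝ) (τ : ℝ),
    (∀ k : ℕ, 1 ≤ k → |4 * U k - U (2 * k) - Real.log ‖4 * Y k ^ 2‖| ≤ C₀) ∧
    (∀ k : ℕ, 1 ≤ k → |U k - Real.log (max ‖Z k‖ 1) -
      (-Real.log ‖κ‖) * (B2 (k * τ) - 1 / 6)| ≤ C₀)

/-- C02 : bounded `j`, two sided -/
def ST_C02 : Prop := ∀ J₀ : ℝ, ∃ C₀ : ℝ, 0 ≤ C₀ ∧ ∀ A B : ℂ, dsc A B ≠ 0 →
  ‖6912 * A ^ 3‖ ≤ J₀ * ‖dsc A B‖ → ∀ X Y : ℕ → ℂ, GSeq (0 : ℂ) A B X Y →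
  ∃ R : ℝ, 0 < R ∧ Real.log R = 1 / 6 * Real.log ‖dsc A B‖ ∧ ‖A‖ ≤ C₀ * R ^ 2 ∧
    ‖B‖ ≤ C₀ * R ^ 3 ∧ ∀ k : ℕ, 1 ≤ k →
    |4 * Real.log (max ‖X k‖ R) - Real.log (max ‖X (2 * k)‖ R) -
      Real.log ‖4 * cu A B (X k)‖| ≤ C₀

/-- CX2 : archimedean places, final form, two sided -/
def ST_CX2 : Prop := ∃ C₀ : ℝ, 0 ≤ C₀ ∧ ∀ A B : ℂ, dsc A B ≠ 0 → ∀ x y : ℕ → ℂ,
  GSeq (0 : ℂ) A B x y →
  ∃ (U f : ℕ → ℝ) (τ : ℝ),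
    (∀ k : ℕ, 1 ≤ k → |4 * U k - U (2 * k) - Real.log ‖4 * cu A B (x k)‖| ≤ C₀) ∧
    (∃ C : ℝ, ∀ k : ℕ, 1 ≤ k → |U k - Real.log (max ‖x k‖ 1)| ≤ C) ∧
    QC C₀ f ∧
    (∀ k : ℕ, 1 ≤ k → |U k - (1 / 6 * Real.log ‖dsc A B‖
      + max 0 (Real.log ‖6912 * A ^ 3 / dsc A B‖) * B2 (k * τ) + f k)| ≤ C₀)

/-! ### global part -/

/-- KPOT2 : the canonical height is the sum of the local potentials, up to a constant -/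
def ST_KPOT2 : Prop := ∀ (K : Type) [Field K] [NumberField K] (x c : ℕ → K) (e : ℝ),
  IsCanK x e → (∀ k : ℕ, 1 ≤ k → c k ≠ 0) → ∀ (S : Finset (FinitePlace K))
  (U : FinitePlace K → ℕ → ℝ) (D : FinitePlace K → ℝ) (Ui : InfinitePlace K → ℕ → ℝ) (C₀ : ℝ),
  (∀ v ∈ S, ∀ k : ℕ, 1 ≤ k → |4 * U v k - U v (2 * k) - Real.log (v (c k))| ≤ D v) →
  (∀ v : FinitePlace K, v ∉ S → ∀ k : ℕ, 1 ≤ k →
    4 * Real.log (max (v (x k)) 1) = Real.log (max (v (x (2 * k))) 1) + Real.log (v (c k))) →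
  (∀ w : InfinitePlace K, ∀ k : ℕ, 1 ≤ k →
    |4 * Ui w k - Ui w (2 * k) - Real.log (w (c k))| ≤ C₀) →
  (∀ v ∈ S, ∃ C : ℝ, ∀ k : ℕ, 1 ≤ k → |U v k - Real.log (max (v (x k)) 1)| ≤ C) →
  (∀ w : InfinitePlace K, ∃ C : ℝ, ∀ k : ℕ, 1 ≤ k →
    |Ui w k - Real.log (max (w (x k)) 1)| ≤ C) →
  ∀ k : ℕ, 1 ≤ k → ∀ T : Finset (FinitePlace K), (∀ v ∈ T, v ∉ S) →
    (∀ v : FinitePlace K, v ∉ S → v ∉ T → v (x k) ≤ 1) →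
    |(k : ℝ) ^ 2 * e - (∑ v ∈ S, U v k + ∑ v ∈ T, Real.log (max (v (x k)) 1) +
      ∑ w : InfinitePlace K, (w.mult : ℝ) * Ui w k)| ≤
      (∑ v ∈ S, D v + Module.finrank ℚ K * C₀) / 3

/-- KLOC : local package at a finite place of a number field -/
def ST_KLOC : Prop := ∀ (K : Type) [Field K] [NumberField K] (v : FinitePlace K),
  ∃ C : ℝ, 0 ≤ C ∧ ∀ A B : K, dsc A B ≠ 0 → ∀ x y : ℕ → K, GSeq (0 : K) A B x y → ∀ ε : ℝ,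
  ((v 2 = 1 ∧ v 3 = 1) → ε = 0) → (¬ (v 2 = 1 ∧ v 3 = 1) → ε = C) →
  ∃ (w t : ℝ) (n : ℕ) (U f : ℕ → ℝ), 0 ≤ w ∧ |w - dl (fun x : K => v x) A B| ≤ ε ∧ 1 ≤ n ∧
    (∃ a : ℤ, (n : ℝ) * t = a) ∧ (w ≠ 0 → n * lq v ≤ w) ∧ (w = 0 → n = 1 ∧ t = 0) ∧
    (v 2 = 1 → v 3 = 1 → t ≠ 0 → IsMul (fun x : K => v x) A B) ∧
    (∀ k : ℕ, 1 ≤ k → |4 * U k - U (2 * k) - Real.log (v (4 * cu A B (x k)))| ≤ ε) ∧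
    (∃ C : ℝ, ∀ k : ℕ, 1 ≤ k → |U k - Real.log (max (v (x k)) 1)| ≤ C) ∧
    QC 0 f ∧
    (∀ k : ℕ, 1 ≤ k →
      |U (12 * k) - (w * B2 (k * t) + 1 / 6 * Real.log (v (dsc A B)) + f k)| ≤ ε)

/-- KARC : local package at an infinite place of a number field -/
def ST_KARC : Prop := ∃ C₀ : ℝ, 0 ≤ C₀ ∧ ∀ (K : Type) [Field K] [NumberField K]
    (w : InfinitePlace K) (A B : K), dsc A B ≠ 0 → ∀ x y : ℕ → K, GSeq (0 : K) A B x y →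
    ∃ (U f : ℕ → ℝ) (τ : ℝ),
    (∀ k : ℕ, 1 ≤ k → |4 * U k - U (2 * k) - Real.log (w (4 * cu A B (x k)))| ≤ C₀) ∧
    (∃ C : ℝ, ∀ k : ℕ, 1 ≤ k → |U k - Real.log (max (w (x k)) 1)| ≤ C) ∧
    QC C₀ f ∧
    (∀ k : ℕ, 1 ≤ k → |U k - (1 / 6 * Real.log (w (dsc A B))
      + max 0 (Real.log (w (6912 * A ^ 3 / dsc A B))) * B2 (k * τ) + f k)| ≤ C₀)

open Classical in
/-- total size of the finite places with exponent larger than `E` -/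
noncomputable def LX {K : Type} [Field K] [NumberField K] (A B : K) (E : ℝ) : ℝ :=
  ∑ᶠ v : FinitePlace K, if E * lq v < dl (fun x : K => v x) A B then
    dl (fun x : K => v x) A B else 0

/-- signed master inequality -/
def MSgn (C₀ e : ℝ) (V : Finset ℕ) (w t : ℕ → ℝ) : Prop := ∀ (J : ℕ) (b : ℕ → ℝ), 1 ≤ J →
  DC J b → ∑ k ∈ Finset.Icc 1 J, b k * (∑ v ∈ V, w v * B2 (k * t v)) ≤
    144 * e * (∑ k ∈ Finset.Icc 1 J, b k * (k : ℝ) ^ 2) +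
      C₀ * (1 + Real.log J) ^ 2 * ∑ k ∈ Finset.Icc 1 J, |b k|

/-- KMT2 : master inequality with signed weights -/
def ST_KMT2 : Prop := ∀ (K : Type) [Field K] [NumberField K], ∃ C₀ : ℝ, 0 ≤ C₀ ∧
  ∀ A B : K, dsc A B ≠ 0 → ∀ (x y : ℕ → K) (e : ℝ), GSeq (0 : K) A B x y → IsCanK x e →
  0 ≤ LD A B ∧
  ∃ H : ℝ, LD A B ≤ H ∧ H ≤ HK A B ∧ HK A B ≤ 2 * H ∧
  ∃ (V Vf : Finset ℕ) (w t : ℕ → ℝ) (n : ℕ → ℕ),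
    MSum C₀ H (LD A B) (LR A B) (mK A B) e V Vf w t n ∧ MSgn C₀ e V w t ∧
    ∀ E : ℝ, 0 ≤ E →
      ∑ v ∈ Vf.filter (fun v => E + C₀ < (n v : ℝ)), w v ≤ LX A B E + C₀

/-! ### the kernel -/

/-- the weights `(1 - cos 2πbj)³ / j⁶` (zero for `j = 0`) -/
noncomputable def wg (b : ℝ) (j : ℕ) : ℝ :=
  (1 - Real.cos (2 * Real.pi * (b * j))) ^ 3 / (j : ℝ) ^ 6

/-- corrected weights -/
noncomputable def bt (τ b : ℝ) (j : ℕ) : ℝ := wt b j - τ / b ^ 2 * wg b j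

/-- GK : the cosine transform of `wg` is constant away from the integers (sixth difference of the
sixth Bernoulli polynomial) -/
def ST_GK : Prop := ∀ b θ : ℝ, 0 < b → b ≤ 1 / 6 → 3 * b ≤ nd θ →
  ∑' j : ℕ, wg b j * Real.cos (2 * Real.pi * (j * θ)) = -(4 * Real.pi ^ 6 * b ^ 6)

/-- GS : sizes -/
def ST_GS : Prop := ∃ C : ℝ, 0 < C ∧ ∀ b : ℝ, 0 < b → b ≤ 1 / 6 →
  Summable (wg b) ∧ ∑' j : ℕ, wg b j ≤ C * b ^ 5 ∧ WW b ≤ C * b ^ 3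

/-- BT : the corrected weights, infinite sums -/
def ST_BT : Prop := ∃ τ c₁ C₁ : ℝ, 0 < τ ∧ τ ≤ 1 / 9 ∧ 0 < c₁ ∧ 0 < C₁ ∧
  ∀ b : ℝ, 0 < b → b ≤ 1 / 6 →
    Summable (fun j : ℕ => |bt τ b j|) ∧ ∑' j : ℕ, |bt τ b j| ≤ C₁ * b ^ 3 ∧
    (∀ j : ℕ, τ ≤ (b * j) ^ 2 → 0 ≤ bt τ b j) ∧
    (∀ J : ℕ, ∑ j ∈ Finset.Icc 1 J, bt τ b j * (j : ℝ) ^ 2 ≤ C₁ * b) ∧
    (∀ (n : ℕ) (α : ℝ), 1 ≤ n → 3 * b * n ≤ 1 → (∃ a : ℤ, (n : ℝ) * α = a) →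
      c₁ * b ^ 4 ≤ ∑' j : ℕ, bt τ b j * B2 (j * α)) ∧
    (∀ m : ℕ, 1 ≤ m → 3 * b * m ≤ 1 → c₁ * b ^ 3 / m ≤ ∑' i : ℕ, bt τ b (m * i))

/-- KER : the kernel, finite sums -/
def ST_KER : Prop := ∃ b₀ c₁ C₁ : ℝ, 0 < b₀ ∧ b₀ ≤ 1 / 6 ∧ 0 < c₁ ∧ 0 < C₁ ∧
  ∀ b : ℝ, 0 < b → b ≤ b₀ → ∃ (J : ℕ) (β : ℕ → ℝ), 1 ≤ J ∧ DC J β ∧
    1 + Real.log J ≤ C₁ * (1 + Real.log (1 / b)) ∧
    ∑ j ∈ Finset.Icc 1 J, |β j| ≤ C₁ * b ^ 3 ∧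
    ∑ j ∈ Finset.Icc 1 J, β j * (j : ℝ) ^ 2 ≤ C₁ * b ∧
    ∀ (n : ℕ) (α : ℝ), 1 ≤ n → 3 * b * n ≤ 1 → (∃ a : ℤ, (n : ℝ) * α = a) →
      c₁ * b ^ 4 ≤ ∑ j ∈ Finset.Icc 1 J, β j * B2 (j * α)

/-! ### final part -/

/-- COR : the kernel applied to the signed master inequality -/
def ST_COR : Prop := ∀ C₀ : ℝ, 0 ≤ C₀ → ∃ b₀ c C : ℝ, 0 < b₀ ∧ b₀ ≤ 1 / 6 ∧ 0 < c ∧ 0 < C ∧
  ∀ {e : ℝ} {V Vf : Finset ℕ} {w t : ℕ → ℝ} {n : ℕ → ℕ}, 0 ≤ e → Vf ⊆ V →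
    (∀ v ∈ V, 0 ≤ w v) → (∀ v ∈ Vf, 1 ≤ n v ∧ ∃ a : ℤ, (n v : ℝ) * t v = a) →
    MSgn C₀ e V w t → ∀ b : ℝ, 0 < b → b ≤ b₀ → ∀ G : Finset ℕ, G ⊆ Vf →
    (∀ v ∈ G, 3 * b * n v ≤ 1) → ∑ v ∈ V \ G, w v ≤ c * b * ∑ v ∈ V, w v →
    c * b ^ 3 * (∑ v ∈ V, w v) - C * (1 + Real.log (1 / b)) ^ 2 * b ^ 2 ≤ e

/-- LV : the lower bounds, sequence form -/
def ST_LV : Prop := ∀ (K : Type) [Field K] [NumberField K], ∃ c : ℝ, 0 < c ∧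
  ∀ A B : K, dsc A B ≠ 0 → ∀ (x y : ℕ → K) (e : ℝ), GSeq (0 : K) A B x y → IsCanK x e →
  c * (1 + HK A B) ^ (-(1 / 2 : ℝ)) ≤ e ∧
  ∀ E : ℝ, 1 ≤ E → E * LX A B E ≤ c * (1 + HK A B) → c * (1 + HK A B) / E ^ 3 ≤ e

end Pool.Agent.Helper92.LV
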