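import Pool.Agent.Helper92.LV.Stmts

namespace Pool.Agent.Helper92.LV

lemma div1_mul {c : ℝ} {f : ℕ → ℝ} (hc : 0 ≤ c) (hf : QC c f) :
    ∀ j : ℕ, 1 ≤ j → ∀ k : ℕ, 1 ≤ k → f k - 2 * (Nat.log 2 j : ℝ) * c ≤ f (j * k) := by
  intro j
  induction j using Nat.strong_induction_on with
  | _ j ih =>
    intro hj k hk
    rcases Nat.lt_or_ge j 2 with h2 | h2
    · have h1 : j = 1 := by omega
      subst h1
      simp
    · have hlog : Nat.log 2 j = Nat.log 2 (j / 2) + 1 := by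
        rw [Nat.log_of_one_lt_of_le (by norm_num) h2]
      obtain ⟨l, hl⟩ : ∃ l : ℝ, l = (Nat.log 2 (j / 2) : ℝ) := ⟨_, rfl⟩
      have hj' : 1 ≤ j / 2 := by omega
      have h3 := ih (j / 2) (by omega) hj' k hk
      have hjk : 1 ≤ j / 2 * k := Nat.mul_pos hj' hk
      have h4 := hf.add (j / 2 * k) (j / 2 * k) hjk hjk
      rw [min_self] at h4
      rw [hlog]
      push_cast
      rw [← hl] at h3 ⊢
      rcases Nat.even_or_odd j with he | ho
      · have e1 : j / 2 * k + j / 2 * k = j * k := by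
          obtain ⟨a, ha⟩ := he
          have : j / 2 = a := by omega
          rw [this, ha]
          ring
        rw [e1] at h4
        nlinarith
      · have e1 : (j / 2 * k + j / 2 * k) + k = j * k := by
          obtain ⟨a, ha⟩ := ho
          have : j / 2 = a := by omega
          rw [this, ha]
          ring
        have h5 := hf.add (j / 2 * k + j / 2 * k) k (by omega) hk
        rw [e1] at h5
        have hl0 : 0 ≤ l := by rw [hl]; positivity
        have h6 : f k - 2 * l * c - c ≤ min (f (j / 2 * k + j / 2 * k)) (f k) := by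
          apply le_min
          · linarith
          · nlinarith [mul_nonneg hl0 hc]
        nlinarith

lemma div1_mul' {c : ℝ} {f : ℕ → ℝ} (hc : 0 ≤ c) (hf : QC c f) {J : ℕ} (j : ℕ) (hj : 1 ≤ j)
    (hjJ : j ≤ J) (k : ℕ) (hk : 1 ≤ k) : f k - 2 * (Nat.log 2 J : ℝ) * c ≤ f (j * k) := by
  refine le_trans ?_ (div1_mul hc hf j hj k hk)
  have h1 : (Nat.log 2 j : ℝ) ≤ Nat.log 2 J := by
    exact_mod_cast Nat.log_mono_right hjJ
  have h2 := mul_le_mul_of_nonneg_right h1 hc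
  linarith

lemma div1_ind {c : ℝ} {f : ℕ → ℝ} (hc : 0 ≤ c) (hf : QC c f) {J : ℕ} (L : ℝ)
    (hL : L = 2 * (Nat.log 2 J : ℝ)) : ∀ (i : ℕ) (s : ℝ),
    (∃ k : ℕ, 1 ≤ k ∧ k ≤ J ∧ s ≤ f k ∧ k < 2 ^ (i + 1)) →
    ∃ d : ℕ, 1 ≤ d ∧ (∀ k : ℕ, 1 ≤ k → k ≤ J → s ≤ f k → d ∣ k) ∧
      (∀ k : ℕ, 1 ≤ k → k ≤ J → d ∣ k → s - (i * ((L + 2) * c) + L * c) ≤ f k) := by
  have hL0 : 0 ≤ L := by rw [hL]; positivity
  intro i
  induction i with
  | zero =>
    intro s hs
    obtain ⟨k, hk1, hkJ, hks, hk2⟩ := hs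
    have hk : k = 1 := by
      have : (2 : ℕ) ^ (0 + 1) = 2 := by norm_num
      omega
    subst hk
    refine ⟨1, le_rfl, fun k _ _ _ => one_dvd k, fun k hk hkJ _ => ?_⟩
    have h1 := div1_mul' hc hf k hk hkJ 1 le_rfl
    rw [mul_one, ← hL] at h1
    push_cast
    linarith
  | succ i ih =>
    intro s hs
    classical
    have hex : ∃ k : ℕ, 1 ≤ k ∧ k ≤ J ∧ s ≤ f k := by
      obtain ⟨k, h1, h2, h3, -⟩ := hs
      exact ⟨k, h1, h2, h3⟩
    obtain ⟨d, hd, hdmin⟩ : ∃ d : ℕ, (1 ≤ d ∧ d ≤ J ∧ s ≤ f d) ∧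
        ∀ k : ℕ, 1 ≤ k → k ≤ J → s ≤ f k → d ≤ k :=
      ⟨Nat.find hex, Nat.find_spec hex, fun k h1 h2 h3 => Nat.find_min' hex ⟨h1, h2, h3⟩⟩
    obtain ⟨hd1, hdJ, hds⟩ := hd
    have hd2 : d < 2 ^ (i + 1 + 1) := by
      obtain ⟨k, h1, h2, h3, h4⟩ := hs
      exact lt_of_le_of_lt (hdmin k h1 h2 h3) h4
    have hlam : 0 ≤ (L + 2) * c := by positivity
    by_cases hall : ∀ k : ℕ, 1 ≤ k → k ≤ J → s ≤ f k → d ∣ k
    · refine ⟨d, hd1, hall, ?_⟩
      rintro k hk hkJ ⟨q, rfl⟩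
      have hq : 1 ≤ q := Nat.pos_of_ne_zero (by rintro rfl; simp at hk)
      have hqJ : q ≤ J := le_trans (Nat.le_mul_of_pos_left q hd1) hkJ
      have h1 := div1_mul' hc hf q hq hqJ d hd1
      rw [← hL, mul_comm q d] at h1
      have h2 : 0 ≤ ((i + 1 : ℕ) : ℝ) * ((L + 2) * c) := by positivity
      linarith
    · push Not at hall
      obtain ⟨k, hk1, hkJ, hks, hkd⟩ := hall
      have hdk : d ≤ k := hdmin k hk1 hkJ hks
      obtain ⟨q, hq⟩ : ∃ q, q = k / d := ⟨_, rfl⟩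
      obtain ⟨r, hr⟩ : ∃ r, r = k % d := ⟨_, rfl⟩
      have hkqr : q * d + r = k := by
        rw [hq, hr, mul_comm]
        exact Nat.div_add_mod k d
      have hr0 : 1 ≤ r := by
        rw [hr]
        exact Nat.pos_of_ne_zero fun h => hkd (Nat.dvd_of_mod_eq_zero h)
      have hrd : r < d := by rw [hr]; exact Nat.mod_lt k hd1
      have hq1 : 1 ≤ q := by rw [hq]; exact Nat.div_pos hdk hd1
      have hqJ : q ≤ J := by
        have := Nat.le_mul_of_pos_right q hd1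
        omega
      have h1 := div1_mul' hc hf q hq1 hqJ d hd1
      rw [← hL] at h1
      have h2 := hf.sub k (q * d) (Nat.mul_pos hq1 hd1) (by omega)
      have e2 : k - q * d = r := by omega
      rw [e2] at h2
      have h3 : s - L * c ≤ min (f k) (f (q * d)) := by
        apply le_min
        · have : 0 ≤ L * c := by positivity
          linarith
        · linarith
      have h4 : s - (L + 1) * c ≤ f r := by linarith
      have h5 := hf.sub d r hr0 hrd
      have h6 : s - (L + 1) * c ≤ min (f d) (f r) := by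
        apply le_min
        · have : 0 ≤ (L + 1) * c := by positivity
          linarith
        · exact h4
      have h7 : s - (L + 2) * c ≤ f (d - r) := by linarith
      have h8 : s - (L + 2) * c ≤ f r := by linarith
      have h9 : ∃ k : ℕ, 1 ≤ k ∧ k ≤ J ∧ s - (L + 2) * c ≤ f k ∧ k < 2 ^ (i + 1) := by
        have hp : 2 ^ (i + 1 + 1) = 2 * 2 ^ (i + 1) := by ring
        rcases Nat.lt_or_ge r (2 ^ (i + 1)) with h | h
        · exact ⟨r, hr0, by omega, h8, h⟩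
        · exact ⟨d - r, by omega, by omega, h7, by omega⟩
      obtain ⟨d', hd', hA, hB⟩ := ih (s - (L + 2) * c) h9
      refine ⟨d', hd', fun k' h10 h11 h12 => hA k' h10 h11 (by linarith), fun k' h10 h11 h12 => ?_⟩
      have := hB k' h10 h11 h12
      push_cast
      linarith

theorem st_DIV1 : ST_DIV1 := by
  intro c f J hc hf hJ s
  by_cases hex : ∃ k : ℕ, 1 ≤ k ∧ k ≤ J ∧ s ≤ f k
  · obtain ⟨k, h1, h2, h3⟩ := hex
    have h4 : k < 2 ^ (Nat.log 2 J + 1) := lt_of_le_of_lt h2 (Nat.lt_pow_succ_log_self (by norm_num) J)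
    obtain ⟨d, hd, hA, hB⟩ := div1_ind hc hf (2 * (Nat.log 2 J : ℝ)) rfl (Nat.log 2 J) s
      ⟨k, h1, h2, h3, h4⟩
    refine ⟨d, hd, hA, fun k' h5 h6 h7 => le_trans ?_ (hB k' h5 h6 h7)⟩
    have hl : (0 : ℝ) ≤ Nat.log 2 J := by positivity
    nlinarith
  · push Not at hex
    refine ⟨J + 1, by omega, fun k h1 h2 h3 => absurd h3 (not_le.2 (hex k h1 h2)),
      fun k h1 h2 h3 => ?_⟩
    have := Nat.le_of_dvd (by omega) h3
    omega

end Pool.Agent.Helper92.LV
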