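import Pool.Agent.Helper42.LK.All
import Pool.Agent.Helper18.LS.K1
import Pool.Agent.Helper18.LS.K2
import Pool.Agent.Helper92.LV.DIV1
import Pool.Agent.Helper11.LV.KMT2
import Pool.Agent.Helper13.LV.COR
import Pool.Agent.Helper13.LV.QCA
import Pool.Agent.Helper18.LV.GK
import Pool.Agent.Helper18.LV.GS
import Pool.Agent.Helper3.LV.BT
import Pool.Agent.Helper3.LV.FIN
import Pool.Agent.Helper30.LV.KER
import Pool.Agent.Helper35.LV.C02
import Pool.Agent.Helper41.LV.CX2
import Pool.Agent.Helper45.LV.KLOC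
import Pool.Agent.Helper48.LV.CS2
import Pool.Agent.Helper48.LV.KPM2
import Pool.Agent.Helper61.LV.DIV
import Pool.Agent.Helper67.LV.CP2
import Pool.Agent.Helper67.LV.KGO2
import Pool.Agent.Helper67.LV.QCI
import Pool.Agent.Helper7.LV.KARC
import Pool.Agent.Helper72.LV.KLS2
import Pool.Agent.Helper84.LV.KPG
import Pool.Agent.Helper94.LV.KPOT2
import Pool.Agent.Helper97.LV.KLB2

namespace Pool.Agent.Helper92.LV

open Pool.Agent.Helper42.LS Pool.Agent.Helper42.LK

theorem all_DIV : ST_DIV := st_DIV st_DIV1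

theorem all_PM2 : ST_KPM2 := st_KPM2 st_KPA st_KPD st_PI

theorem all_LB2 : ST_KLB2 := st_KLB2 st_QCI all_PM2 st_KPG2 st_KAD st_KMN st_KSC

theorem all_LS2 : ST_KLS2 := st_KLS2 st_QCI all_PM2 st_KPS2 st_KMN st_KSC

theorem all_CS2 : ST_CS2 :=
  st_CS2 st_CP2 st_CID kall_CFA st_CFD st_CP (st_FST st_FS1 st_RC)

theorem all_CX2 : ST_CX2 := st_CX2 st_QCA all_CS2 st_C02 st_CR st_KSC

theorem all_LOC : ST_KLOC := st_KLOC all_LB2 all_LS2 st_KFP

theorem all_ARC : ST_KARC := st_KARC all_CX2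

/-- the signed master inequality over number fields -/
theorem all_MT2 : ST_KMT2 :=
  st_KMT2 all_LOC all_ARC st_KGO2 st_QCI st_KPOT2 kall_DF st_KFP all_DIV

theorem all_BT : ST_BT :=
  st_BT st_GK st_GS Pool.Agent.Helper54.LS.st_K1 Pool.Agent.Helper54.LS.st_K2

theorem all_COR : ST_COR := st_COR (st_KER all_BT)

/-- the lower bounds for one point -/
theorem all_LV : ST_LV := st_FIN all_MT2 all_COR (st_CK st_F2) kall_SM

end Pool.Agent.Helper92.LV
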