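import Pool.Agent.Helper92.LV.Stmts2
import Pool.Agent.Helper42.LK.All

open Filter Topology NumberField

namespace Pool.Agent.Helper92.LV

open Pool.Agent.Helper42.LS Pool.Agent.Helper42.LK

lemma isGr_unique {K : Type} [Field K] [NumberField K] [DecidableEq K] {A B : K} {m : ℕ}
    {P : Fin m → (ECK A B).toAffine.Point} {G G' : Matrix (Fin m) (Fin m) ℝ} (h : IsGr P G)
    (h' : IsGr P G') : G = G' := by
  have hq : ∀ k : Fin m → ℤ, ∑ i, ∑ j, (k i : ℝ) * (k j : ℝ) * G i j =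
      ∑ i, ∑ j, (k i : ℝ) * (k j : ℝ) * G' i j := fun k => tendsto_nhds_unique (h.2 k) (h'.2 k)
  have hone : ∀ (M : Matrix (Fin m) (Fin m) ℝ) (a b : Fin m),
      ∑ i, ∑ j, (((Pi.single a 1 + Pi.single b 1 : Fin m → ℤ) i : ℝ)) *
        (((Pi.single a 1 + Pi.single b 1 : Fin m → ℤ) j : ℝ)) * M i j =
      M a a + M a b + M b a + M b b := by
    intro M a b
    have e1 : ∀ i j : Fin m, (((Pi.single a 1 + Pi.single b 1 : Fin m → ℤ) i : ℝ)) *
        (((Pi.single a 1 + Pi.single b 1 : Fin m → ℤ) j : ℝ)) * M i j =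
        ((if i = a then 1 else 0) + (if i = b then 1 else 0)) *
          (((if j = a then 1 else 0) + (if j = b then 1 else 0)) * M i j) := by
      intro i j
      simp only [Pi.add_apply, Pi.single_apply]
      push_cast
      ring
    have e2 : ∀ i : Fin m, ∑ j : Fin m, (((if j = a then (1 : ℝ) else 0) +
        (if j = b then 1 else 0)) * M i j) = M i a + M i b := by
      intro i
      simp [add_mul, Finset.sum_add_distrib]
    simp only [e1, ← Finset.mul_sum, e2]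
    simp [add_mul, Finset.sum_add_distrib]
    ring
  ext a b
  have h1 := hq (Pi.single a 1 + Pi.single b 1)
  rw [hone, hone] at h1
  have h2 := hq (Pi.single a 1 + Pi.single a 1)
  rw [hone, hone] at h2
  have h3 := hq (Pi.single b 1 + Pi.single b 1)
  rw [hone, hone] at h3
  have h4 := congrFun (congrFun h.1 a) b
  have h5 := congrFun (congrFun h'.1 a) b
  rw [Matrix.transpose_apply] at h4 h5
  linarith

/-- the final theorem, from the statements for one point -/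
theorem lv_pow (hLV : ST_LV) (hPW : ST_PW) (K : Type) [Field K] [NumberField K] [DecidableEq K]
    (m : ℕ) (hm : 1 ≤ m) : ∃ c : ℝ, 0 < c ∧ ∀ A B : K, 4 * A ^ 3 + 27 * B ^ 2 ≠ 0 →
    ∀ P : Fin m → (ECK A B).toAffine.Point, (∃ i, ∀ n : ℕ, 0 < n → n • P i ≠ 0) →
    ∃ G : Matrix (Fin m) (Fin m) ℝ, IsGr P G ∧
      ∀ S : Matrix (Fin m) (Fin m) ℤ, (S.map (fun z : ℤ => (z : ℝ))).PosDef →
        c * (1 + HK A B) ^ (-(1 / 2 : ℝ)) ≤ ∑ i, ∑ j, (S i j : ℝ) * G i j ∧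
        ∀ X : ℝ, 1 ≤ X → X * LX A B X ≤ c * (1 + HK A B) →
          c * (1 + HK A B) / X ^ 3 ≤ ∑ i, ∑ j, (S i j : ℝ) * G i j := by
  obtain ⟨c₁, hc₁, h1⟩ := hLV K
  obtain ⟨c₂, hc₂, h2⟩ := hPW K m hm
  refine ⟨min c₁ (c₂ * c₁), lt_min hc₁ (by positivity), ?_⟩
  intro A B hD P hP
  have hHK : 0 ≤ HK A B := by
    obtain ⟨C₀, -, hMT⟩ := kall_MT K
    obtain ⟨i, hi⟩ := hP
    obtain ⟨x, y, e, hg, he, -⟩ := kpts_seq A B hD (P i) hi
    obtain ⟨h0, -, -, -, H, h3, h4, -⟩ := hMT A B hD x y e hg he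
    linarith
  have hH1 : 0 < 1 + HK A B := by linarith
  have hpt : ∀ Q : (ECK A B).toAffine.Point, (∀ n : ℕ, 0 < n → n • Q ≠ 0) → ∀ e : ℝ,
      Tendsto (fun n : ℕ => hxK (2 ^ n • Q) / 4 ^ n) atTop (𝓝 e) →
      c₁ * (1 + HK A B) ^ (-(1 / 2 : ℝ)) ≤ e ∧
      ∀ X : ℝ, 1 ≤ X → X * LX A B X ≤ c₁ * (1 + HK A B) → c₁ * (1 + HK A B) / X ^ 3 ≤ e := by
    intro Q hQ e he
    obtain ⟨x, y, e', hg, he', ht⟩ := kpts_seq A B hD Q hQ
    rw [tendsto_nhds_unique he ht]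
    exact h1 A B hD x y e' hg he'
  have hp0 : 0 < (1 + HK A B) ^ (-(1 / 2 : ℝ)) := Real.rpow_pos_of_pos hH1 _
  obtain ⟨G, hG, hG1⟩ := h2 A B hD (c₁ * (1 + HK A B) ^ (-(1 / 2 : ℝ))) (by positivity)
    (fun Q hQ e he => (hpt Q hQ e he).1) P hP
  refine ⟨G, hG, ?_⟩
  intro S hS
  refine ⟨?_, ?_⟩
  · refine le_trans ?_ (hG1 S hS)
    rw [← mul_assoc]
    exact mul_le_mul_of_nonneg_right (min_le_right _ _) hp0.le
  · intro X hX hLX
    have hX0 : 0 < X := by linarith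
    obtain ⟨G', hG', hG1'⟩ := h2 A B hD (c₁ * (1 + HK A B) / X ^ 3) (by positivity)
      (fun Q hQ e he => (hpt Q hQ e he).2 X hX
        (hLX.trans (mul_le_mul_of_nonneg_right (min_le_left _ _) hH1.le))) P hP
    rw [isGr_unique hG hG']
    refine le_trans ?_ (hG1' S hS)
    rw [← mul_div_assoc, ← mul_assoc]
    apply div_le_div_of_nonneg_right _ (by positivity)
    exact mul_le_mul_of_nonneg_right (min_le_right _ _) hH1.le

end Pool.Agent.Helper92.LV
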