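import Pool.Agent.Helper92.LV.All
import Pool.Agent.Helper92.LV.Pow
import Pool.Agent.Helper19.LM.LBF
import Pool.Agent.Helper2.LV.PHER
import Pool.Agent.Helper7.LV.PSTR
import Pool.Agent.Helper83.LV.PTOR
import Pool.Agent.Helper78.LV.PW

open Filter Topology NumberField

namespace Pool.Agent.Helper92.LV

open Pool.Agent.Helper42.LK

theorem all_PW : ST_PW := st_PW st_PTOR st_PSTR (st_PHER Pool.Agent.Helper19.LM.st_LBF)

/-- the final theorem -/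
theorem lv_all (K : Type) [Field K] [NumberField K] [DecidableEq K] (m : ℕ) (hm : 1 ≤ m) :
    ∃ c : ℝ, 0 < c ∧ ∀ A B : K, 4 * A ^ 3 + 27 * B ^ 2 ≠ 0 →
    ∀ P : Fin m → (ECK A B).toAffine.Point, (∃ i, ∀ n : ℕ, 0 < n → n • P i ≠ 0) →
    ∃ G : Matrix (Fin m) (Fin m) ℝ, IsGr P G ∧
      ∀ S : Matrix (Fin m) (Fin m) ℤ, (S.map (fun z : ℤ => (z : ℝ))).PosDef →
        c * (1 + HK A B) ^ (-(1 / 2 : ℝ)) ≤ ∑ i, ∑ j, (S i j : ℝ) * G i j ∧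
        ∀ X : ℝ, 1 ≤ X → X * LX A B X ≤ c * (1 + HK A B) →
          c * (1 + HK A B) / X ^ 3 ≤ ∑ i, ∑ j, (S i j : ℝ) * G i j :=
  lv_pow all_LV all_PW K m hm

end Pool.Agent.Helper92.LV
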