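import Pool.Agent.Helper42.LK.Defs

/-!
# The places with intermediate exponents (MP_9a3c31_nt)
-/

namespace Pool.Agent.Helper92.LV

open Pool.Agent.Helper42.LK NumberField

open Classical in
/-- total size of the finite places `v` with `X * lq v < dl_v < (1 + HK A B) / X` -/
noncomputable def LW {K : Type} [Field K] [NumberField K] (A B : K) (X : ℝ) : ℝ :=
  ∑ᶠ v : FinitePlace K, if X * lq v < dl (fun x : K => v x) A B ∧
    dl (fun x : K => v x) A B < (1 + HK A B) / X then dl (fun x : K => v x) A B else 0

end Pool.Agent.Helper92.LV
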