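import Pool.Agent.Helper92.LV.AllPow
import Pool.Agent.Helper92.LV.Big

/-!
# The unified lower bound for powers of elliptic curves (MP_9a3c31_nt)
-/

open Filter Topology NumberField

namespace Pool.Agent.Helper92.LV

open Pool.Agent.Helper42.LS Pool.Agent.Helper42.LK

theorem all_MT3 : ST_KMT3 :=
  st_KMT3 all_LOC all_ARC st_KGO2 st_QCI st_KPOT2 kall_DF st_KFP all_DIV

theorem all_LVW : ST_LVW := st_LVW (st_BIG all_MT3 (st_CK st_F2) kall_SM all_LV) all_LV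

/-- the final theorem -/
theorem lvw_all (K : Type) [Field K] [NumberField K] [DecidableEq K] (m : ℕ) (hm : 1 ≤ m) :
    ∃ c : ℝ, 0 < c ∧ ∀ A B : K, 4 * A ^ 3 + 27 * B ^ 2 ≠ 0 →
    ∀ P : Fin m → (ECK A B).toAffine.Point, (∃ i, ∀ n : ℕ, 0 < n → n • P i ≠ 0) →
    ∃ G : Matrix (Fin m) (Fin m) ℝ, IsGr P G ∧
      ∀ S : Matrix (Fin m) (Fin m) ℤ, (S.map (fun z : ℤ => (z : ℝ))).PosDef →
        c * (1 + HK A B) ^ (-(1 / 2 : ℝ)) ≤ ∑ i, ∑ j, (S i j : ℝ) * G i j ∧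
        ∀ X : ℝ, 1 ≤ X → X * LW A B X ≤ c * (1 + HK A B) →
          c * (1 + HK A B) / X ^ 3 ≤ ∑ i, ∑ j, (S i j : ℝ) * G i j := by
  obtain ⟨c₁, hc₁, h1⟩ := all_LVW K
  obtain ⟨c₂, hc₂, h2⟩ := all_PW K m hm
  refine ⟨min c₁ (c₂ * c₁), lt_min hc₁ (by positivity), ?_⟩
  intro A B hD P hP
  have hHK : 0 ≤ HK A B := by
    obtain ⟨C₀, -, hMT⟩ := kall_MT K
    obtain ⟨i, hi⟩ := hP
    obtain ⟨x, y, e, hg, he, -⟩ := kpts_seq A B hD (P i) hi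
    obtain ⟨h0, -, -, -, H, h3, h4, -⟩ := hMT A B hD x y e hg he
    linarith
  have hH1 : 0 < 1 + HK A B := by linarith
  have hpt : ∀ Q : (ECK A B).toAffine.Point, (∀ n : ℕ, 0 < n → n • Q ≠ 0) → ∀ e : ℝ,
      Tendsto (fun n : ℕ => hxK (2 ^ n • Q) / 4 ^ n) atTop (𝓝 e) →
      c₁ * (1 + HK A B) ^ (-(1 / 2 : ℝ)) ≤ e ∧
      ∀ X : ℝ, 1 ≤ X → X * LW A B X ≤ c₁ * (1 + HK A B) → c₁ * (1 + HK A B) / X ^ 3 ≤ e := by
    intro Q hQ e he
    obtain ⟨x, y, e', hg, he', ht⟩ := kpts_seq A B hD Q hQ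
    rw [tendsto_nhds_unique he ht]
    exact h1 A B hD x y e' hg he'
  have hp0 : 0 < (1 + HK A B) ^ (-(1 / 2 : ℝ)) := Real.rpow_pos_of_pos hH1 _
  obtain ⟨G, hG, hG1⟩ := h2 A B hD (c₁ * (1 + HK A B) ^ (-(1 / 2 : ℝ))) (by positivity)
    (fun Q hQ e he => (hpt Q hQ e he).1) P hP
  refine ⟨G, hG, ?_⟩
  intro S hS
  refine ⟨?_, ?_⟩
  · refine le_trans ?_ (hG1 S hS)
    rw [← mul_assoc]
    exact mul_le_mul_of_nonneg_right (min_le_right _ _) hp0.le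
  · intro X hX hLX
    have hX0 : 0 < X := by linarith
    obtain ⟨G', hG', hG1'⟩ := h2 A B hD (c₁ * (1 + HK A B) / X ^ 3) (by positivity)
      (fun Q hQ e he => (hpt Q hQ e he).2 X hX
        (hLX.trans (mul_le_mul_of_nonneg_right (min_le_left _ _) hH1.le))) P hP
    rw [isGr_unique hG hG']
    refine le_trans ?_ (hG1' S hS)
    rw [← mul_div_assoc, ← mul_assoc]
    apply div_le_div_of_nonneg_right _ (by positivity)
    exact mul_le_mul_of_nonneg_right (min_le_right _ _) hH1.le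

end Pool.Agent.Helper92.LV
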