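import Pool.Agent.Helper92.LV.Stmts
import Pool.Agent.Helper54.LM.Defs

/-!
# Powers of elliptic curves (MP_9a3c31_nt): module statements
-/

open Filter Topology NumberField

namespace Pool.Agent.Helper92.LV

open Pool.Agent.Helper42.LS Pool.Agent.Helper42.LK Pool.Agent.Helper54.LM

/-- `G` is the matrix of the height pairing of the points `P`: the canonical height
`lim h (x (2 ^ n Q)) / 4 ^ n` of `Q = ∑ k i • P i` is `∑ k i * k j * G i j`, for all integers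
`k i`. -/
def IsGr {K : Type} [Field K] [NumberField K] [DecidableEq K] {A B : K} {m : ℕ}
    (P : Fin m → (ECK A B).toAffine.Point) (G : Matrix (Fin m) (Fin m) ℝ) : Prop :=
  G.IsSymm ∧ ∀ k : Fin m → ℤ, Tendsto (fun n : ℕ => hxK (2 ^ n • ∑ i, k i • P i) / 4 ^ n) atTop
    (𝓝 (∑ i, ∑ j, (k i : ℝ) * (k j : ℝ) * G i j))

/-- PTOR : translation by a torsion point does not change the canonical height -/
def ST_PTOR : Prop := ∀ (K : Type) [Field K] [NumberField K] [DecidableEq K] (A B : K),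
  4 * A ^ 3 + 27 * B ^ 2 ≠ 0 → ∀ (R T : (ECK A B).toAffine.Point) (e : ℝ),
  (∃ N : ℕ, 0 < N ∧ N • T = 0) →
  Tendsto (fun n : ℕ => hxK (2 ^ n • R) / 4 ^ n) atTop (𝓝 e) →
  Tendsto (fun n : ℕ => hxK (2 ^ n • (R + T)) / 4 ^ n) atTop (𝓝 e)

/-- PSTR : a finite family in an abelian group, modulo torsion -/
def ST_PSTR : Prop := ∀ (M : Type) [AddCommGroup M] (m : ℕ) (P : Fin m → M),
  (∃ i, ∀ n : ℕ, 0 < n → n • P i ≠ 0) →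
  ∃ (r : ℕ) (Q : Fin r → M) (N : Matrix (Fin m) (Fin r) ℤ), 1 ≤ r ∧ r ≤ m ∧
    (∀ k : Fin r → ℤ, k ≠ 0 → ∑ j, k j • Q j ≠ 0) ∧
    (∀ i, ∃ n : ℕ, 0 < n ∧ n • (P i - ∑ j, N i j • Q j) = 0) ∧
    (∀ k : Fin r → ℤ, k ≠ 0 → N.mulVec k ≠ 0)

/-- PHER : Hermite's inequality -/
def ST_PHER : Prop := ∀ m : ℕ, 1 ≤ m → ∃ c : ℝ, 0 < c ∧
  ∀ G : Matrix (Fin m) (Fin m) ℝ, G.PosSemidef → ∀ μ : ℝ, 0 ≤ μ →
  (∀ k : Fin m → ℤ, k ≠ 0 → μ ≤ qf G k) → c * μ ^ m ≤ G.det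

/-- PW : from one point to powers of the curve -/
def ST_PW : Prop := ∀ (K : Type) [Field K] [NumberField K] [DecidableEq K] (m : ℕ), 1 ≤ m →
  ∃ c : ℝ, 0 < c ∧ ∀ A B : K, 4 * A ^ 3 + 27 * B ^ 2 ≠ 0 → ∀ μ : ℝ, 0 ≤ μ →
  (∀ Q : (ECK A B).toAffine.Point, (∀ n : ℕ, 0 < n → n • Q ≠ 0) → ∀ e : ℝ,
    Tendsto (fun n : ℕ => hxK (2 ^ n • Q) / 4 ^ n) atTop (𝓝 e) → μ ≤ e) →
  ∀ P : Fin m → (ECK A B).toAffine.Point, (∃ i, ∀ n : ℕ, 0 < n → n • P i ≠ 0) →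
  ∃ G : Matrix (Fin m) (Fin m) ℝ, IsGr P G ∧
    ∀ S : Matrix (Fin m) (Fin m) ℤ, (S.map (fun z : ℤ => (z : ℝ))).PosDef →
      c * μ ≤ ∑ i, ∑ j, (S i j : ℝ) * G i j

end Pool.Agent.Helper92.LV
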